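import Pool.Agent.Helper50.CSB.Q0
import Pool.Agent.Helper45.CSB.T

/-! Piece Q2: sweeps of nested sets commute; the identities for one letter less. -/

set_option linter.unusedSectionVars false

namespace H50R

open H45C Equiv MvPolynomial

variable {α : Type*} [DecidableEq α]

theorem map_Sj_prefix {m : ℕ} {L L' L'' : List α} (hL : L = L' ++ L'') (hm : L.length = m + 1)
    (g : Fin (m + 1) ↪ α) (hg : ∀ i : Fin (m + 1), g i = L[(i : ℕ)]'(by rw [hm]; exact i.isLt)) :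
    (Sj m L'.length).map g = L'.toFinset := by
  have hlen : L.length = L'.length + L''.length := by
    rw [hL, List.length_append]
  ext x
  rw [Finset.mem_map, List.mem_toFinset, List.mem_iff_getElem]
  constructor
  · rintro ⟨i, hi, h⟩
    have hi' : (i : ℕ) < L'.length := by
      rw [Sj, Finset.mem_filter] at hi
      exact hi.2
    refine ⟨i, hi', ?_⟩
    rw [← h, hg]
    simp only [hL]
    rw [List.getElem_append_left hi']
  · rintro ⟨i, hi, h⟩
    refine ⟨⟨i, by omega⟩, ?_, ?_⟩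
    · rw [Sj, Finset.mem_filter]
      exact ⟨Finset.mem_univ _, hi⟩
    · rw [hg]
      simp only [hL]
      rw [List.getElem_append_left hi]
      exact h

/-- an enumeration of `X` starting with `A ∩ X` and `(B \ A) ∩ X` -/
theorem exists_enum_two (A B X : Finset α) (hAB : A ⊆ B) (hX : X.Nonempty) :
    ∃ (m i j : ℕ) (g : Fin (m + 1) ↪ α), X.card = m + 1 ∧
      (∀ x, (∃ k, g k = x) ↔ x ∈ X) ∧ (Sj m i).map g = A ∩ X ∧ (Sj m j).map g = B ∩ X := by
  obtain ⟨L₁, hL₁⟩ : ∃ L₁, L₁ = (A ∩ X).toList := ⟨_, rfl⟩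
  obtain ⟨L₂, hL₂⟩ : ∃ L₂, L₂ = ((B \ A) ∩ X).toList := ⟨_, rfl⟩
  obtain ⟨L₃, hL₃⟩ : ∃ L₃, L₃ = (X \ B).toList := ⟨_, rfl⟩
  obtain ⟨L, hL⟩ : ∃ L, L = (L₁ ++ L₂) ++ L₃ := ⟨_, rfl⟩
  have hL' : L = L₁ ++ (L₂ ++ L₃) := by rw [hL, List.append_assoc]
  have hm1 : ∀ x, x ∈ L₁ ↔ x ∈ A ∧ x ∈ X := fun x => by
    rw [hL₁, Finset.mem_toList, Finset.mem_inter]
  have hm2 : ∀ x, x ∈ L₂ ↔ (x ∈ B ∧ x ∉ A) ∧ x ∈ X := fun x => by
    rw [hL₂, Finset.mem_toList, Finset.mem_inter, Finset.mem_sdiff]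
  have hm3 : ∀ x, x ∈ L₃ ↔ x ∈ X ∧ x ∉ B := fun x => by
    rw [hL₃, Finset.mem_toList, Finset.mem_sdiff]
  have hmL : ∀ x, x ∈ L ↔ x ∈ X := by
    intro x
    rw [hL, List.mem_append, List.mem_append, hm1, hm2, hm3]
    tauto
  have hnd : L.Nodup := by
    rw [hL, List.nodup_append, List.nodup_append]
    refine ⟨⟨by rw [hL₁]; exact Finset.nodup_toList _, by rw [hL₂]; exact Finset.nodup_toList _,
      ?_⟩, by rw [hL₃]; exact Finset.nodup_toList _, ?_⟩
    · intro a ha b hb hab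
      subst hab
      exact ((hm2 a).1 hb).1.2 ((hm1 a).1 ha).1
    · intro a ha b hb hab
      subst hab
      rw [List.mem_append] at ha
      rcases ha with h | h
      · exact ((hm3 a).1 hb).2 (hAB ((hm1 a).1 h).1)
      · exact ((hm3 a).1 hb).2 ((hm2 a).1 h).1.1
  have hLX : L.toFinset = X := by
    ext x
    rw [List.mem_toFinset, hmL]
  have hcard : X.card = L.length := by
    rw [← hLX, List.toFinset_card_of_nodup hnd]
  obtain ⟨m, hm⟩ : ∃ m, L.length = m + 1 := by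
    have h1 : 0 < X.card := Finset.card_pos.2 hX
    exact ⟨L.length - 1, by omega⟩
  obtain ⟨g, hg⟩ : ∃ g : Fin (m + 1) ↪ α, ∀ i : Fin (m + 1), g i = L[(i : ℕ)]'(by
      rw [hm]; exact i.isLt) := by
    refine ⟨⟨fun i => L[(i : ℕ)]'(by rw [hm]; exact i.isLt), fun i i' h => ?_⟩, fun i => rfl⟩
    exact Fin.ext ((hnd.getElem_inj_iff).1 h)
  refine ⟨m, L₁.length, (L₁ ++ L₂).length, g, by rw [hcard, hm], fun x => ?_, ?_, ?_⟩
  · rw [← hmL, List.mem_iff_getElem]
    constructor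
    · rintro ⟨i, hi⟩
      exact ⟨i, by rw [hm]; exact i.isLt, by rw [← hg]; exact hi⟩
    · rintro ⟨i, hi, h⟩
      exact ⟨⟨i, by rw [← hm]; exact hi⟩, by rw [hg]; exact h⟩
  · rw [map_Sj_prefix hL' hm g hg]
    ext x
    rw [List.mem_toFinset, hm1, Finset.mem_inter]
  · rw [map_Sj_prefix hL hm g hg]
    ext x
    rw [List.mem_toFinset, List.mem_append, hm1, hm2, Finset.mem_inter]
    have := @hAB x
    tauto

/-- prefixes -/
theorem Hop_comm_fin {m : ℕ} (i j : ℕ) (a b : ℤ) (x : WG m) :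
    Hop (Sj m i) a (Hop (Sj m j) b (wd (om x))) = Hop (Sj m j) b (Hop (Sj m i) a (wd (om x))) := by
  rw [← Om_bas, ← Om_act_hz, ← Om_act_hz, ← Om_act_hz, ← Om_act_hz, ← act_mul_apply,
    ← act_mul_apply, mul_comm]

/-- sweeps of nested sets commute -/
theorem Hop_comm {X A B : Finset α} (hAB : A ⊆ B) (a b : ℤ) {z : Wd α} (hz : z ∈ WS X) :
    Hop A a (Hop B b z) = Hop B b (Hop A a z) := by
  refine WS_ind ((Hop A a).comp (Hop B b)) ((Hop B b).comp (Hop A a)) (fun u hu huX => ?_) z hz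
  rw [LinearMap.comp_apply, LinearMap.comp_apply]
  rcases X.eq_empty_or_nonempty with hX | hX
  · have h0 : u = [] := by
      rw [hX] at huX
      rwa [List.toFinset_eq_empty_iff] at huX
    subst h0
    rw [Hop_wd, Hop_wd, hop_nil, hop_nil]
    split_ifs with h1 h2 h2
    · rw [Hop_wd, Hop_wd, hop_nil, hop_nil, if_pos h1, if_pos h2]
    · rw [Hop_wd, hop_nil, if_neg h2, map_zero]
    · rw [Hop_wd, hop_nil, if_neg h1, map_zero]
    · rw [map_zero, map_zero]
  · obtain ⟨m, i, j, g, hcard, hgX, hgA, hgB⟩ := exists_enum_two A B X hAB hX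
    have hA : ∀ x ∈ X, x ∈ A ↔ x ∈ (Sj m i).map g := fun x hx => by
      rw [hgA, Finset.mem_inter]
      exact ⟨fun h => ⟨h, hx⟩, fun h => h.1⟩
    have hB : ∀ x ∈ X, x ∈ B ↔ x ∈ (Sj m j).map g := fun x hx => by
      rw [hgB, Finset.mem_inter]
      exact ⟨fun h => ⟨h, hx⟩, fun h => h.1⟩
    have huWS : wd u ∈ WS X := Submodule.subset_span ⟨u, ⟨hu, huX⟩, rfl⟩
    obtain ⟨u', hu'⟩ := exists_map g u fun a ha => (hgX a).2 (by
      rw [← huX]
      exact List.mem_toFinset.2 ha)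
    have hu'nd : u'.Nodup := by
      rw [← hu'] at hu
      exact List.Nodup.of_map g hu
    have hu'len : u'.length = m + 1 := by
      have h1 : u.length = m + 1 := by
        rw [← hcard, ← huX, List.toFinset_card_of_nodup hu]
      rw [← hu', List.length_map] at h1
      exact h1
    obtain ⟨x, hx⟩ := exists_om u' hu'nd hu'len
    have hwd : wd u = mpE g (wd (om x)) := by rw [mpE_wd, hx, hu']
    have hmA := Hop_mem_WS A a (wd u) huWS
    have hmB := Hop_mem_WS B b (wd u) huWS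
    rw [Hop_congr_WS A _ a hA _ hmB, Hop_congr_WS B _ b hB _ hmA, Hop_congr_WS A _ a hA _ huWS,
      Hop_congr_WS B _ b hB _ huWS, hwd, ← mpE_Hop, ← mpE_Hop, ← mpE_Hop, ← mpE_Hop,
      Hop_comm_fin i j a b x]

/-- the identities on words: `Y_q` relative to `A \ {q}` -/
theorem Hop_Yl {A : Finset α} {q : α} (hqA : q ∈ A) (k : ℤ) {u : List α} (hu : u.Nodup) :
    Hop A k (wd u) = Hop (A.erase q) k (wd u) + Hop A (k - 1) (Yl (A.erase q) q u) := by
  have h := hop_insert (A.erase q) q (Finset.notMem_erase q A) u hu k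
  rw [Finset.insert_erase hqA] at h
  rw [Hop_wd, Hop_wd, h]

theorem Yl_one {A : Finset α} {q : α} (hqA : q ∈ A) {u : List α} (hu : u.Nodup) :
    Yl (A.erase q) q u = Hop A 1 (wd u) - Hop (A.erase q) 1 (wd u) := by
  have h := Hop_Yl hqA 1 hu
  rw [sub_self, Hop_zero, Module.End.one_apply] at h
  rw [h]
  abel

/-- `A_k = A'_k + (A_1 - A'_1) A_{k-1}`, with the factors in either order -/
theorem Hop_id0 {X A : Finset α} {q : α} (hqA : q ∈ A) (hq : q ∈ X) (k : ℤ)
    {z : Wd α} (hz : z ∈ WS X) : Hop A k z = Hop (A.erase q) k z +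
      (Hop A (k - 1) (Hop A 1 z) - Hop A (k - 1) (Hop (A.erase q) 1 z)) := by
  refine WS_ind (Hop A k) (Hop (A.erase q) k + ((Hop A (k - 1)).comp (Hop A 1) -
    (Hop A (k - 1)).comp (Hop (A.erase q) 1))) (fun u hu huX => ?_) z hz
  rw [LinearMap.add_apply, LinearMap.sub_apply, LinearMap.comp_apply, LinearMap.comp_apply,
    ← map_sub, ← Yl_one hqA hu]
  exact Hop_Yl hqA k hu

/-- `Y_q` relative to two sets -/
theorem Yl_two {A B : Finset α} {q : α} (hqA : q ∈ A) (hAB : A ⊆ B) {u : List α}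
    (hu : u.Nodup) (hq : q ∈ u) : Yl (A.erase q) q u = Yl (B.erase q) q u +
      ∑ l ∈ (B \ A) ∩ u.toFinset, wd (u.map (swap q l)) := by
  have hBA : ∀ x, x ∈ A → x ∈ B := fun x hx => hAB hx
  rw [Yl_eq _ q (Finset.notMem_erase q A) u hu hq, Yl_eq _ q (Finset.notMem_erase q B) u hu hq,
    Finset.insert_erase hqA, Finset.insert_erase (hAB hqA)]
  have e1 : u.toFinset \ A = (u.toFinset \ B) ∪ ((B \ A) ∩ u.toFinset) := by
    ext x
    simp only [Finset.mem_sdiff, Finset.mem_union, Finset.mem_inter, List.mem_toFinset]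
    have := hBA x
    tauto
  have d1 : Disjoint (u.toFinset \ B) ((B \ A) ∩ u.toFinset) := by
    rw [Finset.disjoint_left]
    intro x h1 h2
    exact (Finset.mem_sdiff.1 h1).2 (Finset.mem_sdiff.1 (Finset.mem_inter.1 h2).1).1
  have e2 : u.toFinset ∩ B.erase q = (u.toFinset ∩ A.erase q) ∪ ((B \ A) ∩ u.toFinset) := by
    ext x
    simp only [Finset.mem_sdiff, Finset.mem_union, Finset.mem_inter, List.mem_toFinset,
      Finset.mem_erase]
    have := hBA x
    have h3 : x ∉ A → x ≠ q := fun h4 h5 => h4 (h5 ▸ hqA)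
    tauto
  have d2 : Disjoint (u.toFinset ∩ A.erase q) ((B \ A) ∩ u.toFinset) := by
    rw [Finset.disjoint_left]
    intro x h1 h2
    exact (Finset.mem_sdiff.1 (Finset.mem_inter.1 h2).1).2
      (Finset.mem_of_mem_erase (Finset.mem_inter.1 h1).2)
  rw [e1, e2, Finset.sum_union d1, Finset.sum_union d2]
  have e3 : ∑ l ∈ (B \ A) ∩ u.toFinset, wd (u.map (swap q l)) =
      (∑ D ∈ (B \ A) ∩ u.toFinset,
        if u.idxOf q < u.idxOf D then wd (u.map (swap D q)) else 0) +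
      ∑ D ∈ (B \ A) ∩ u.toFinset,
        if u.idxOf D < u.idxOf q then wd (u.map (swap D q)) else 0 := by
    rw [← Finset.sum_add_distrib]
    refine Finset.sum_congr rfl fun D hD => ?_
    have hDq : D ≠ q := fun h =>
      (Finset.mem_sdiff.1 (Finset.mem_inter.1 hD).1).2 (h ▸ hqA)
    have hne : u.idxOf q ≠ u.idxOf D := fun h => hDq ((List.idxOf_inj hq).1 h).symm
    rw [swap_comm q D]
    rcases lt_or_gt_of_ne hne with h | h
    · rw [if_pos h, if_neg (not_lt.2 h.le), add_zero]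
    · rw [if_neg (not_lt.2 h.le), if_pos h, zero_add]
  rw [e3]
  abel

/-- the main identity: `A_k = A'_k + A_{k-1} (B_1 - B'_1) + ∑ A_{k-1} σ_{qℓ}` -/
theorem Hop_id1 {X A B : Finset α} {q : α} (hqA : q ∈ A) (hAB : A ⊆ B) (hq : q ∈ X) (k : ℤ)
    {z : Wd α} (hz : z ∈ WS X) : Hop A k z = Hop (A.erase q) k z +
      (Hop A (k - 1) (Hop B 1 z) - Hop A (k - 1) (Hop (B.erase q) 1 z)) +
      ∑ l ∈ (B \ A) ∩ X, Hop A (k - 1) (rl (swap q l) z) := by
  have key := WS_ind (Hop A k) (Hop (A.erase q) k + ((Hop A (k - 1)).comp (Hop B 1) -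
    (Hop A (k - 1)).comp (Hop (B.erase q) 1)) +
    ∑ l ∈ (B \ A) ∩ X, (Hop A (k - 1)).comp (rl (swap q l))) (fun u hu huX => ?_) z hz
  · rw [key]
    simp only [LinearMap.add_apply, LinearMap.sub_apply, LinearMap.comp_apply,
      LinearMap.sum_apply]
  · simp only [LinearMap.add_apply, LinearMap.sub_apply, LinearMap.comp_apply,
      LinearMap.sum_apply]
    have hqu : q ∈ u := by
      rw [← List.mem_toFinset, huX]
      exact hq
    rw [← map_sub, ← Yl_one (hAB hqA) hu, Hop_Yl hqA k hu, Yl_two hqA hAB hu hqu, huX,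
      map_add, map_sum]
    simp only [rl_wd]
    abel

end H50R
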