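import Pool.Agent.Helper45.CSB.Q1
import Pool.Agent.Helper48.CSB.Q2
import Pool.Agent.Helper10.CSB.Q3

/-!
# Two rows: `A_a B_b - A_c B_s` is nonnegative for small `s`
-/

namespace H50R

open H45C Equiv

variable {α : Type*} [DecidableEq α]

section nested

variable {X : Finset α} {h E : α} {A B C : Finset α}

private theorem q9_pn2_ne (hh : h ∉ X) (hE : E ∈ X) (hAB : A ⊆ B) (a b : ℤ) {z : Wd α} (hz : z ∈ WS X) :
    pr E (Hop A a (Hop B b (cns h z))) =
      (if h ∈ A ∧ E ∉ A then Hop A (a - 1) (rl (swap E h) (Hop B b z)) else 0) +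
      (if h ∈ B ∧ E ∉ B then Hop A a (Hop B (b - 1) (rl (swap E h) z)) else 0) := by
  rw [pr_two_ne hh hE A B a b hz]
  have e : (X ∩ A) \ B = ∅ := by
    rw [Finset.sdiff_eq_empty_iff_subset]
    exact Finset.inter_subset_right.trans hAB
  rw [e, Finset.sum_empty, ite_self, add_zero]

private theorem q9_pn2_self (hh : h ∉ X) (hAB : A ⊆ B) (a b : ℤ) {z : Wd α} (hz : z ∈ WS X) :
    pr h (Hop A a (Hop B b (cns h z))) = Hop A a (Hop B b z) := by
  rw [pr_two_self hh A B a b hz]
  have e : (X ∩ A) \ B = ∅ := by
    rw [Finset.sdiff_eq_empty_iff_subset]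
    exact Finset.inter_subset_right.trans hAB
  rw [e, Finset.sum_empty, ite_self, add_zero]

/-- the exchange of two letters of the set -/
private theorem q9_cj_both (hh : h ∉ X) (hE : E ∈ X) {S : Finset α} (h1 : h ∈ S) (h2 : E ∈ S) (k : ℤ)
    {z : Wd α} (hz : z ∈ WS X) : rl (swap E h) (Hop S k z) = Hop S k (rl (swap E h) z) := by
  refine rl_gen _ S S ?_ k hz
  intro x hx
  have hxh : x ≠ h := fun h' => hh (h' ▸ hx)
  rcases eq_or_ne x E with rfl | hxE
  · rw [swap_apply_left]
    exact ⟨fun _ => h1, fun _ => h2⟩
  · rw [swap_apply_of_ne_of_ne hxE hxh]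

/-- the exchange of a letter of the set with a letter outside -/
private theorem q9_cj_out (hh : h ∉ X) (hE : E ∈ X) {S : Finset α} (h2 : E ∉ S) (k : ℤ)
    {z : Wd α} (hz : z ∈ WS X) :
    rl (swap E h) (Hop S k z) = Hop (S.erase h) k (rl (swap E h) z) := by
  refine rl_gen _ S (S.erase h) ?_ k hz
  intro x hx
  have hxh : x ≠ h := fun h' => hh (h' ▸ hx)
  rcases eq_or_ne x E with rfl | hxE
  · rw [swap_apply_left]
    exact ⟨fun h' => absurd h' h2, fun h' => absurd h' (Finset.notMem_erase _ _)⟩
  · rw [swap_apply_of_ne_of_ne hxE hxh, Finset.mem_erase]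
    exact ⟨fun h' => ⟨hxh, h'⟩, fun h' => h'.2⟩

end nested

private theorem q9_gap_le {X Y A B : Finset α} (h : Y ⊆ X) :
    (((B \ A) ∩ Y).card : ℤ) ≤ ((B \ A) ∩ X).card := by
  exact_mod_cast Finset.card_le_card (Finset.inter_subset_inter_left h)

private theorem q9_gap_lt {X A B : Finset α} {h E : α} (hE : E ∈ X) (hEB : E ∈ B) (hEA : E ∉ A)
    (hhA : h ∈ A) : (((B \ A) ∩ (insert h X).erase E).card : ℤ) + 1 ≤
      ((B \ A) ∩ insert h X).card := by
  have h1 : (B \ A) ∩ (insert h X).erase E = ((B \ A) ∩ insert h X).erase E := by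
    rw [Finset.inter_erase]
  have h2 : E ∈ (B \ A) ∩ insert h X :=
    Finset.mem_inter.2 ⟨Finset.mem_sdiff.2 ⟨hEB, hEA⟩, Finset.mem_insert_of_mem hE⟩
  rw [h1]
  exact_mod_cast (Finset.card_erase_add_one h2).le

/-- `A_a B_b - A_c B_s` -/
noncomputable def Dg (A B : Finset α) (a b c s : ℤ) (z : Wd α) : Wd α :=
  Hop A a (Hop B b z) - Hop A c (Hop B s z)

/-- the operator `Dg` -/
noncomputable def DgE (A B : Finset α) (a b c s : ℤ) : Module.End ℤ (Wd α) :=
  Hop A a * Hop B b - Hop A c * Hop B s

theorem DgE_apply (A B : Finset α) (a b c s : ℤ) (z : Wd α) :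
    DgE A B a b c s z = Dg A B a b c s z := rfl

theorem Dg_mem {X : Finset α} (A B : Finset α) (a b c s : ℤ) {z : Wd α} (hz : z ∈ WS X) :
    Dg A B a b c s z ∈ WS X := by
  unfold Dg
  exact Submodule.sub_mem _ (Hop_mem _ _ (Hop_mem _ _ hz)) (Hop_mem _ _ (Hop_mem _ _ hz))

/-- the component at a letter outside both sets after a letter `q` of the smaller set -/
theorem key_id {Z A B : Finset α} {q : α} (hqA : q ∈ A) (hAB : A ⊆ B) (hq : q ∈ Z) (k e : ℤ)
    {y : Wd α} (hy : y ∈ WS Z) :
    Hop A (k - 1) (Hop (B.erase q) e y) + Hop A k (Hop B (e - 1) y) =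
      Hop (A.erase q) k (Hop B (e - 1) y) + Hop A (k - 1) (Hop B e y) +
      ∑ l ∈ (B \ A) ∩ Z, Hop A (k - 1) (Hop B (e - 1) (rl (swap q l) y)) := by
  have hy' : Hop B (e - 1) y ∈ WS Z := Hop_mem _ _ hy
  have h1 := Hop_id1 hqA hAB hq k hy'
  have h2 := Hop_insert_left (B.erase q) q (Finset.notMem_erase q B) Z hq y hy e
  rw [Finset.insert_erase (hAB hqA)] at h2
  have h3 : ∀ l ∈ (B \ A) ∩ Z, Hop A (k - 1) (rl (swap q l) (Hop B (e - 1) y)) =
      Hop A (k - 1) (Hop B (e - 1) (rl (swap q l) y)) := by
    intro l hl
    have hlB : l ∈ B := (Finset.mem_sdiff.1 (Finset.mem_inter.1 hl).1).1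
    rw [rl_gen (swap q l) B B (fun x _ => ?_) (e - 1) hy]
    by_cases hxq : x = q
    · subst hxq
      rw [swap_apply_left]
      exact ⟨fun _ => hlB, fun _ => hAB hqA⟩
    · by_cases hxl : x = l
      · subst hxl
        rw [swap_apply_right]
        exact ⟨fun _ => hAB hqA, fun _ => hlB⟩
      · rw [swap_apply_of_ne_of_ne hxq hxl]
  rw [Finset.sum_congr rfl h3] at h1
  rw [h1, h2]
  simp only [map_add, LinearMap.sub_apply, map_sub]
  abel

theorem Dg_small {X A B : Finset α} (hAB : A ⊆ B) {a b c s : ℤ} (h : a + b = c + s)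
    (hs : 0 ≤ s) (hs1 : s ≤ 1) (h1 : a + 1 ≤ c) (h2 : b + ((B \ A) ∩ X).card ≤ c)
    {z : Wd α} (hz : z ∈ WS X) (hn : WN z) : WN (Dg A B a b c s z) := by
  have hsc : s = 0 ∨ s = 1 := by omega
  rcases hsc with rfl | rfl
  · have e : Dg A B a b c 0 z = Hop A a (Hop B b z) - Hop A (a + b) z := by
      unfold Dg
      rw [Hop_zero, Module.End.one_apply, show c = a + b by omega]
    rw [e]
    exact two_pos hAB (by omega) (by omega) (by omega) hz hn
  · have e : Dg A B a b c 1 z = Dd A B a b z := by
      unfold Dg Dd
      rw [show c = a + b - 1 by omega]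
    rw [e]
    exact Dd_pos hAB (by omega) (by omega) hz hn

/-- one letter between the two sets -/
theorem Hop_gap_one {X A B : Finset α} {l : α} (hAB : A ⊆ B) (hl : (B \ A) ∩ X = {l}) (k : ℤ)
    {z : Wd α} (hz : z ∈ WS X) : Hop A k z = Hop B k z -
      (Hop B 1 (Hop B (k - 1) z) - Hop A 1 (Hop B (k - 1) z)) := by
  have hlm : l ∈ (B \ A) ∩ X := by
    rw [hl]
    exact Finset.mem_singleton_self l
  have hlX : l ∈ X := (Finset.mem_inter.1 hlm).2
  have hlA : l ∉ A := (Finset.mem_sdiff.1 (Finset.mem_inter.1 hlm).1).2
  have hlB : l ∈ B := (Finset.mem_sdiff.1 (Finset.mem_inter.1 hlm).1).1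
  have hc : ∀ x ∈ X, x ∈ insert l A ↔ x ∈ B := by
    intro x hx
    rw [Finset.mem_insert]
    constructor
    · rintro (rfl | h)
      · exact hlB
      · exact hAB h
    · intro h
      by_cases hxA : x ∈ A
      · exact Or.inr hxA
      · left
        have : x ∈ (B \ A) ∩ X := Finset.mem_inter.2 ⟨Finset.mem_sdiff.2 ⟨h, hxA⟩, hx⟩
        rw [hl] at this
        exact Finset.mem_singleton.1 this
  have h := Hop_insert_left A l hlA X hlX z hz k
  have hm : Hop (insert l A) (k - 1) z ∈ WS X := Hop_mem _ _ hz
  rw [LinearMap.sub_apply, Hop_congr hc k hz, Hop_congr hc 1 hm, Hop_congr hc (k - 1) hz] at h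
  rw [h]
  abel

theorem two_row_aux (n : ℕ) : ∀ X : Finset α, X.card = n → ∀ (A B : Finset α) (a b c s : ℤ),
    A ⊆ B → a + b = c + s → 0 ≤ s → (s ≤ 1 ∨ ((B \ A) ∩ X).card + s ≤ 3) → a + 1 ≤ c →
    b + ((B \ A) ∩ X).card ≤ c → ∀ z : Wd α, z ∈ WS X → WN z → WN (Dg A B a b c s z) := by
  induction n using Nat.strong_induction_on with
  | _ n ih =>
    intro X hX
    -- the case which is not tight
    have nt : ∀ (A B : Finset α) (a b c s : ℤ), A ⊆ B → a + b = c + s → 2 ≤ s →
        ((B \ A) ∩ X).card + s ≤ 3 → a + 1 ≤ c → b + ((B \ A) ∩ X).card + 1 ≤ c →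
        ∀ z : Wd α, z ∈ WS X → WN z → WN (Dg A B a b c s z) := by
      intro A B a b c s hAB h hs hg h1 h2 z hz hn
      refine WN_of_words (DgE A B a b c s) ?_ hz hn
      intro u hu huX
      rw [DgE_apply]
      clear hz hn z
      match u, hu, huX with
      | [], _, huX =>
        have e1 : Hop B s (wd ([] : List α)) = 0 := by
          rw [Hop_wd, hop_nil, if_neg (by omega)]
        have e2 : Hop B b (wd ([] : List α)) = 0 := by
          rw [Hop_wd, hop_nil, if_neg (by omega)]
        unfold Dg
        rw [e1, e2, map_zero, map_zero, sub_zero]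
        exact WN.zero
      | q :: u, hu, huX =>
        obtain ⟨hq, hu'⟩ := List.nodup_cons.1 hu
        obtain ⟨Y, hY⟩ : ∃ Y, Y = u.toFinset := ⟨_, rfl⟩
        have hh : q ∉ Y := fun h' => hq (List.mem_toFinset.1 (hY ▸ h'))
        have hXi : X = insert q Y := by
          rw [← huX, List.toFinset_cons, hY]
        have hz : wd u ∈ WS Y := wd_mem u hu' hY.symm
        have hn : WN (wd u) := WN.wd u
        rw [← cns_wd]
        generalize wd u = z at hz hn
        clear hu hq hu' huX hY u
        subst hXi
        have hYc : Y.card < n := by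
          rw [Finset.card_insert_of_notMem hh] at hX
          omega
        have hzX : Dg A B a b c s (cns q z) ∈ WS (insert q Y) :=
          Dg_mem A B a b c s (cns_mem hh hz)
        refine WN_of_pr ⟨q, Finset.mem_insert_self _ _⟩ hzX ?_
        have hsub : Y ⊆ insert q Y := Finset.subset_insert _ _
        intro E hE
        rcases Finset.mem_insert.1 hE with rfl | hE
        · -- the same letter
          have e : pr E (Dg A B a b c s (cns E z)) = Dg A B a b c s z := by
            unfold Dg
            rw [map_sub, q9_pn2_self hh hAB a b hz, q9_pn2_self hh hAB c s hz]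
          rw [e]
          have g1 := q9_gap_le (A := A) (B := B) hsub
          exact ih Y.card hYc Y rfl A B a b c s hAB h (by omega) (Or.inr (by omega)) h1
            (by omega) z hz hn
        · -- another letter
          have hEh : E ≠ q := fun h' => hh (h' ▸ hE)
          have hzE : rl (swap E q) z ∈ WS ((insert q Y).erase E) := swap_mem hh hE hz
          have hnE : WN (rl (swap E q) z) := WN_rl _ hn
          have hZc : ((insert q Y).erase E).card < n := by
            rw [Finset.card_erase_of_mem (Finset.mem_insert_of_mem hE), hX]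
            have : 0 < n := by
              rw [← hX]
              exact Finset.card_pos.2 ⟨q, Finset.mem_insert_self _ _⟩
            omega
          have hZX : (insert q Y).erase E ⊆ insert q Y := Finset.erase_subset _ _
          have hhZ : q ∈ (insert q Y).erase E :=
            Finset.mem_erase.2 ⟨hEh.symm, Finset.mem_insert_self _ _⟩
          have e : pr E (Dg A B a b c s (cns q z)) =
              ((if q ∈ A ∧ E ∉ A then Hop A (a - 1) (rl (swap E q) (Hop B b z)) else 0) +
              (if q ∈ B ∧ E ∉ B then Hop A a (Hop B (b - 1) (rl (swap E q) z)) else 0)) -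
              ((if q ∈ A ∧ E ∉ A then Hop A (c - 1) (rl (swap E q) (Hop B s z)) else 0) +
              (if q ∈ B ∧ E ∉ B then Hop A c (Hop B (s - 1) (rl (swap E q) z)) else 0)) := by
            unfold Dg
            rw [map_sub, q9_pn2_ne hh hE hAB a b hz, q9_pn2_ne hh hE hAB c s hz]
          rw [e]
          clear e
          have gB := q9_gap_le (A := A) (B := B) hZX
          by_cases hEA : E ∈ A
          · have hEB := hAB hEA
            simp only [hEA, hEB, not_true_eq_false, and_false, if_false, add_zero, sub_zero]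
            exact WN.zero
          by_cases hhA : q ∈ A
          · have hhB := hAB hhA
            simp only [hhA, hhB, hEA, true_and, not_false_eq_true, if_true]
            by_cases hEB : E ∈ B
            · simp only [hEB, not_true_eq_false, if_false, add_zero]
              have g1 := q9_gap_lt (A := A) (B := B) hE hEB hEA hhA
              have e : Hop A (a - 1) (rl (swap E q) (Hop B b z)) -
                  Hop A (c - 1) (rl (swap E q) (Hop B s z)) =
                  Dg A B (a - 1) b (c - 1) s (rl (swap E q) z) := by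
                unfold Dg
                rw [q9_cj_both hh hE hhB hEB b hz, q9_cj_both hh hE hhB hEB s hz]
              rw [e]
              exact ih _ hZc _ rfl A B (a - 1) b (c - 1) s hAB (by omega) (by omega)
                (Or.inr (by omega)) (by omega) (by omega) _ hzE hnE
            · simp only [hEB, not_false_eq_true, if_true]
              have e : Hop A (a - 1) (rl (swap E q) (Hop B b z)) +
                  Hop A a (Hop B (b - 1) (rl (swap E q) z)) -
                  (Hop A (c - 1) (rl (swap E q) (Hop B s z)) +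
                  Hop A c (Hop B (s - 1) (rl (swap E q) z))) =
                  Dg (A.erase q) B a (b - 1) c (s - 1) (rl (swap E q) z) +
                  Dg A B (a - 1) b (c - 1) s (rl (swap E q) z) +
                  ∑ l ∈ (B \ A) ∩ (insert q Y).erase E,
                    Dg A B (a - 1) (b - 1) (c - 1) (s - 1)
                      (rl (swap q l) (rl (swap E q) z)) := by
                rw [q9_cj_out hh hE hEB b hz, q9_cj_out hh hE hEB s hz,
                  key_id hhA hAB hhZ a b hzE, key_id hhA hAB hhZ c s hzE]
                unfold Dg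
                rw [Finset.sum_sub_distrib]
                abel
              rw [e]
              have g3 : (((B \ A.erase q) ∩ (insert q Y).erase E).card : ℤ) ≤
                  ((B \ A) ∩ (insert q Y).erase E).card + 1 := by
                have h3 : (B \ A.erase q) ∩ (insert q Y).erase E ⊆
                    insert q ((B \ A) ∩ (insert q Y).erase E) := by
                  intro x hx
                  rw [Finset.mem_inter, Finset.mem_sdiff, Finset.mem_erase] at hx
                  rw [Finset.mem_insert, Finset.mem_inter, Finset.mem_sdiff]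
                  tauto
                have h4 := (Finset.card_le_card h3).trans (Finset.card_insert_le _ _)
                exact_mod_cast h4
              refine WN.add (WN.add ?_ ?_) (WN.sum _ _ fun l hl => ?_)
              · exact ih _ hZc _ rfl (A.erase q) B a (b - 1) c (s - 1)
                  ((Finset.erase_subset _ _).trans hAB) (by omega) (by omega)
                  (Or.inr (by omega)) (by omega) (by omega) _ hzE hnE
              · exact ih _ hZc _ rfl A B (a - 1) b (c - 1) s hAB (by omega) (by omega)
                  (Or.inr (by omega)) (by omega) (by omega) _ hzE hnE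
              · exact ih _ hZc _ rfl A B (a - 1) (b - 1) (c - 1) (s - 1) hAB (by omega)
                  (by omega) (Or.inr (by omega)) (by omega) (by omega) _
                  (rl_swap_mem hhZ (Finset.mem_inter.1 hl).2 hzE) (WN_rl _ hnE)
          · by_cases hhB : q ∈ B
            · simp only [hhA, hhB, false_and, true_and, if_false, zero_add]
              by_cases hEB : E ∈ B
              · simp only [hEB, not_true_eq_false, if_false, sub_zero]
                exact WN.zero
              · simp only [hEB, not_false_eq_true, if_true]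
                exact ih _ hZc _ rfl A B a (b - 1) c (s - 1) hAB (by omega) (by omega)
                  (Or.inr (by omega)) (by omega) (by omega) _ hzE hnE
            · simp only [hhA, hhB, false_and, if_false, zero_add, sub_zero]
              exact WN.zero
    -- all cases
    intro A B a b c s hAB h hs hgs h1 h2 z hz hn
    by_cases hs1 : s ≤ 1
    · exact Dg_small hAB h hs hs1 h1 h2 hz hn
    · have hg : ((B \ A) ∩ X).card + s ≤ 3 := hgs.resolve_left hs1
      by_cases ht : b + ((B \ A) ∩ X).card + 1 ≤ c
      · exact nt A B a b c s hAB h (by omega) hg h1 ht z hz hn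
      · have hcard : ((B \ A) ∩ X).card = 0 ∨ ((B \ A) ∩ X).card = 1 := by omega
        rcases hcard with hc0 | hc1
        · have hcg : ∀ x ∈ X, x ∈ A ↔ x ∈ B := by
            intro x hx
            refine ⟨fun h' => hAB h', fun h' => ?_⟩
            by_contra hxA
            have h3 : x ∈ (B \ A) ∩ X := Finset.mem_inter.2 ⟨Finset.mem_sdiff.2 ⟨h', hxA⟩, hx⟩
            rw [Finset.card_eq_zero.1 hc0] at h3
            exact absurd h3 (Finset.notMem_empty _)
          have e : Dg A B a b c s z = 0 := by
            unfold Dg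
            rw [Hop_congr hcg a (Hop_mem _ _ hz), Hop_congr hcg c (Hop_mem _ _ hz),
              show a = s by omega, show b = c by omega,
              Hop_comm (Finset.Subset.refl B) s c hz, sub_self]
          rw [e]
          exact WN.zero
        · obtain ⟨l, hl⟩ := Finset.card_eq_one.1 hc1
          have e : Dg A B a b c s z = Dg B B b (s + 1) (b + 1) s z := by
            unfold Dg
            have ea : a = s + 1 := by omega
            have ec : c = b + 1 := by omega
            subst ea ec
            have h3 := Hop_gap_one hAB hl (s + 1) (Hop_mem B b hz)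
            have h4 := Hop_gap_one hAB hl (b + 1) (Hop_mem B s hz)
            rw [show s + 1 - 1 = s by ring] at h3
            rw [show b + 1 - 1 = b by ring] at h4
            rw [h3, h4, Hop_comm (Finset.Subset.refl B) b s hz,
              Hop_comm (Finset.Subset.refl B) b (s + 1) hz]
            abel
          rw [e]
          have e0 : ((B \ B) ∩ X).card = 0 := by
            rw [Finset.sdiff_self, Finset.empty_inter, Finset.card_empty]
          exact nt B B b (s + 1) (b + 1) s (Finset.Subset.refl B) (by omega) (by omega)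
            (by omega) (by omega) (by omega) z hz hn

/-- **Two rows.** -/
theorem two_row_pos {X A B : Finset α} (hAB : A ⊆ B) {a b c s : ℤ} (h : a + b = c + s)
    (hs : 0 ≤ s) (hgs : s ≤ 1 ∨ ((B \ A) ∩ X).card + s ≤ 3) (h1 : a + 1 ≤ c)
    (h2 : b + ((B \ A) ∩ X).card ≤ c) {z : Wd α} (hz : z ∈ WS X) (hn : WN z) :
    WN (Hop A a (Hop B b z) - Hop A c (Hop B s z)) :=
  two_row_aux _ X rfl A B a b c s hAB h hs hgs h1 h2 z hz hn

/-- **Two rows, the tight case with one letter between the sets.** -/
theorem two_row_tight {X A B : Finset α} (hAB : A ⊆ B) {b s : ℤ} (hs : 0 ≤ s) (hs3 : s ≤ 3)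
    (hg : ((B \ A) ∩ X).card = 1) (h1 : s + 1 ≤ b) {z : Wd α} (hz : z ∈ WS X) (hn : WN z) :
    WN (Hop A (s + 1) (Hop B b z) - Hop A (b + 1) (Hop B s z)) := by
  obtain ⟨l, hl⟩ := Finset.card_eq_one.1 hg
  have e : Hop A (s + 1) (Hop B b z) - Hop A (b + 1) (Hop B s z) =
      Dg B B b (s + 1) (b + 1) s z := by
    unfold Dg
    have h3 := Hop_gap_one hAB hl (s + 1) (Hop_mem B b hz)
    have h4 := Hop_gap_one hAB hl (b + 1) (Hop_mem B s hz)
    rw [show s + 1 - 1 = s by ring] at h3
    rw [show b + 1 - 1 = b by ring] at h4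
    rw [h3, h4, Hop_comm (Finset.Subset.refl B) b s hz,
      Hop_comm (Finset.Subset.refl B) b (s + 1) hz]
    abel
  rw [e]
  have e0 : ((B \ B) ∩ X).card = 0 := by
    rw [Finset.sdiff_self, Finset.empty_inter, Finset.card_empty]
  exact two_row_aux _ X rfl B B b (s + 1) (b + 1) s (Finset.Subset.refl B) (by omega) hs
    (Or.inr (by omega)) (by omega) (by omega) z hz hn

end H50R
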