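import Pool.Agent.Helper48.CSB.Q9

/-!
# Two rows: codes with two adjacent entries
-/

namespace H50R

open H45C Equiv

/-! ### codes with two adjacent entries -/

section codes

open MvPolynomial

variable {m : ℕ}

theorem PP_hz' (i : ℕ) (a : ℤ) : PP (hz m i a) := by
  intro x
  apply NN_of_Om
  rw [Om_act_hz, Om_bas, Hop_wd]
  exact WN_hop _ _ _

theorem PP_of_Dg (i j : ℕ) (a b c s : ℤ)
    (h : ∀ z : Wd (Fin (m + 1)), z ∈ WS Finset.univ → WN z →
      WN (Hop (Sj m i) a (Hop (Sj m j) b z) - Hop (Sj m i) c (Hop (Sj m j) s z))) :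
    PP (hz m i a * hz m j b - hz m i c * hz m j s) := by
  intro x
  apply NN_of_Om
  rw [map_sub, LinearMap.sub_apply, map_sub, act_mul_apply, act_mul_apply, Om_act_hz, Om_act_hz,
    Om_act_hz, Om_act_hz, Om_bas]
  exact h _ (wd_mem _ (om_nodup x) (om_toFinset x)) (WN.wd _)

theorem card_adj (i : ℕ) (hi : i + 1 ≤ m) :
    ((Sj m (i + 2) \ Sj m (i + 1)) ∩ (Finset.univ : Finset (Fin (m + 1)))).card = 1 := by
  rw [Finset.card_eq_one]
  refine ⟨⟨i + 1, by omega⟩, ?_⟩
  ext x
  simp only [Sj, Finset.mem_inter, Finset.mem_sdiff, Finset.mem_filter, Finset.mem_univ, true_and,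
    and_true, Finset.mem_singleton, Fin.ext_iff]
  omega

/-- two adjacent entries `a`, `b` of the code -/
theorem PP_p2_adj (i a b : ℕ) (hi : i + 1 ≤ m) (h : a ≤ 4 ∨ b ≤ 3) :
    PP (p2 m (i + 1) (i + 2) a b) := by
  rcases Nat.eq_zero_or_pos a with ha | ha
  · subst ha
    rw [p2_a_zero _ _ _ (by omega)]
    exact PP_hz' _ _
  rcases Nat.eq_zero_or_pos b with hb | hb
  · subst hb
    rw [p2_b_zero]
    exact PP_hz' _ _
  have hg := card_adj (m := m) i hi
  have hAB : Sj m (i + 1) ⊆ Sj m (i + 2) := Sj_mono (by omega)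
  unfold p2
  by_cases hab : b < a
  · -- the first entry is larger than the second
    have e1 : max ((a : ℤ) + 1) ((b : ℤ) + (((i + 2 : ℕ) : ℤ) - ((i + 1 : ℕ) : ℤ))) =
        (a : ℤ) + 1 := by
      apply max_eq_left
      push_cast
      omega
    rw [e1]
    refine PP_of_Dg _ _ _ _ _ _ fun z hz hn => ?_
    exact two_row_pos hAB (by omega) (by omega) (Or.inr (by rw [hg]; omega)) (by omega)
      (by rw [hg]; omega) hz hn
  · have e1 : max ((a : ℤ) + 1) ((b : ℤ) + (((i + 2 : ℕ) : ℤ) - ((i + 1 : ℕ) : ℤ))) =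
        (b : ℤ) + 1 := by
      have e2 : (((i + 2 : ℕ) : ℤ) - ((i + 1 : ℕ) : ℤ)) = 1 := by
        push_cast
        ring
      rw [e2]
      apply max_eq_right
      omega
    rw [e1]
    refine PP_of_Dg _ _ _ _ _ _ fun z hz hn => ?_
    have h3 := two_row_tight (X := Finset.univ) hAB (b := (b : ℤ)) (s := (a : ℤ) - 1)
      (by omega) (by omega) hg (by omega) hz hn
    have e3 : (a : ℤ) - 1 + 1 = a := by ring
    have e4 : (a : ℤ) + (b : ℤ) - ((b : ℤ) + 1) = (a : ℤ) - 1 := by ring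
    rw [e3] at h3
    rw [e4]
    exact h3

/-- the class of `v`, if the code of `v` is zero outside two adjacent positions, and the first
entry is at most `4` or the second entry at most `3` -/
theorem EE_code_adj (v : WG m) (i j : Fin (m + 1)) (hij : (j : ℕ) = i + 1)
    (hv : ∀ k, k ≠ i → k ≠ j → code v k = 0) (h : code v i ≤ 4 ∨ code v j ≤ 3) : EE v := by
  have hlt : i < j := by
    rw [Fin.lt_def]
    omega
  have hi : (i : ℕ) + 1 ≤ m := by
    have h1 := j.isLt
    omega
  refine ⟨_, isSchub_p2 v i j hlt hv, ?_⟩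
  rw [hij]
  exact PP_p2_adj _ _ _ hi h

end codes

end H50R
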